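import Pool.Agent.Helper568.Sm9

/-!
# Smooth renormings are not stable under `(1 + ε)`-Lipschitz homeomorphisms

There are Banach spaces `X₀` and `Y` such that `X₀` has an equivalent norm which is infinitely often
differentiable off the origin, `Y` has no equivalent norm which is Fréchet differentiable off the
origin, and for every `ε > 0` there are a Banach space `X` linearly isomorphic to `X₀` and a bijection
of `X` onto `Y` which is, together with its inverse, Lipschitz with constant `1 + ε`.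
The spaces `X` are rescaled versions of the twisted sum of the starting file `NoLipFrechet`.
-/

set_option autoImplicit false

namespace Pool.Agent.Results.MP_19024a_an.AlmostIsometric

open Set Filter Topology Pool.Agent.Helper568.Sm BoundedContinuousFunction
open scoped ContDiff

/-- `N` is an equivalent norm on the Banach space `E`. -/
def EquivNorm {E : Type} [NormedAddCommGroup E] [NormedSpace ℝ E] (N : E → ℝ) : Prop :=
  (∀ x y : E, N (x + y) ≤ N x + N y) ∧ (∀ (r : ℝ) (x : E), N (r • x) = |r| * N x) ∧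
    ∃ a b : ℝ, 0 < a ∧ 0 < b ∧ ∀ x : E, a * ‖x‖ ≤ N x ∧ N x ≤ b * ‖x‖

/-- `N` is `k` times Fréchet differentiable at every nonzero point. -/
def TimesDiff {E : Type} [NormedAddCommGroup E] [NormedSpace ℝ E] (k : ℕ) (N : E → ℝ) : Prop :=
  ∀ m : ℕ, m < k → ∀ x : E, x ≠ 0 → DifferentiableAt ℝ (iteratedFDeriv ℝ m N) x

/-- the rescaled twisted space -/
noncomputable def Xe (t : ℝ) : Submodule ℝ (B1 × B2) :=
  Xs.comap (LinearMap.prodMap (LinearMap.id : B1 →ₗ[ℝ] B1) (t⁻¹ • (LinearMap.id : B2 →ₗ[ℝ] B2)))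

theorem mem_Xe {t : ℝ} {x : B1 × B2} :
    x ∈ Xe t ↔ x.1 ∈ Zs ∧ t⁻¹ • x.2 - gg x.1 ∈ C0 := Iff.rfl

theorem Xe_closed (t : ℝ) : IsClosed (Xe t : Set (B1 × B2)) := by
  have h1 : Continuous fun x : B1 × B2 => ((x.1, t⁻¹ • x.2) : B1 × B2) :=
    continuous_fst.prodMk (continuous_snd.const_smul t⁻¹)
  exact Xs_closed.preimage h1

theorem sub_mem_C0 {t : ℝ} (ht : 0 < t) {x : B1 × B2} (hx : x ∈ Xe t) :
    x.2 - t • gg x.1 ∈ C0 := by
  have h1 := C0.smul_mem t (mem_Xe.1 hx).2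
  rwa [smul_sub, smul_inv_smul₀ ht.ne'] at h1

theorem add_mem_Xe {t : ℝ} (ht : 0 < t) {f : B1} {k : B2} (hf : f ∈ Zs) (hk : k ∈ C0) :
    ((f, k + t • gg f) : B1 × B2) ∈ Xe t := by
  refine mem_Xe.2 ⟨hf, ?_⟩
  show t⁻¹ • (k + t • gg f) - gg f ∈ C0
  rw [smul_add, inv_smul_smul₀ ht.ne', add_sub_cancel_right]
  exact C0.smul_mem _ hk

/-- the Lipschitz homeomorphism -/
noncomputable def eqe {t : ℝ} (ht : 0 < t) : Xe t ≃ (Zs × C0) where
  toFun x := (⟨x.1.1, (mem_Xe.1 x.2).1⟩, ⟨x.1.2 - t • gg x.1.1, sub_mem_C0 ht x.2⟩)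
  invFun y := ⟨(y.1.1, y.2.1 + t • gg y.1.1), add_mem_Xe ht y.1.2 y.2.2⟩
  left_inv x := by
    apply Subtype.ext
    refine Prod.ext rfl ?_
    show x.1.2 - t • gg x.1.1 + t • gg x.1.1 = x.1.2
    abel
  right_inv y := by
    refine Prod.ext rfl ?_
    apply Subtype.ext
    show y.2.1 + t • gg y.1.1 - t • gg y.1.1 = y.2.1
    abel

theorem smul_gg_lip {t : ℝ} (ht : 0 < t) (f f' : B1) :
    ‖t • gg f - t • gg f'‖ ≤ 2 * t * ‖f - f'‖ := by
  have h1 : t • gg f - t • gg f' = t • (gg f - gg f') := (smul_sub t (gg f) (gg f')).symm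
  have h2 := gg_lip f f'
  have h3 : ‖t • gg f - t • gg f'‖ = t * ‖gg f - gg f'‖ := by
    rw [h1, norm_smul, Real.norm_eq_abs, abs_of_pos ht]
  rw [h3]
  nlinarith

theorem eqe_norm {t : ℝ} (ht : 0 < t) (x y : Xe t) :
    ‖eqe ht x - eqe ht y‖ ≤ (1 + 2 * t) * ‖x - y‖ := by
  have h1 : ‖x.1.1 - y.1.1‖ ≤ ‖x - y‖ := le_max_left _ _
  have h2 : ‖x.1.2 - y.1.2‖ ≤ ‖x - y‖ := le_max_right _ _
  have h3 := smul_gg_lip ht x.1.1 y.1.1
  have h0 := norm_nonneg (x - y)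
  show max ‖x.1.1 - y.1.1‖ ‖(x.1.2 - t • gg x.1.1) - (y.1.2 - t • gg y.1.1)‖
    ≤ (1 + 2 * t) * ‖x - y‖
  have h4 : 2 * t * ‖x.1.1 - y.1.1‖ ≤ 2 * t * ‖x - y‖ :=
    mul_le_mul_of_nonneg_left h1 (by positivity)
  have h5 : 0 ≤ 2 * t * ‖x - y‖ := by positivity
  refine max_le (by linarith) ?_
  have e1 : (x.1.2 - t • gg x.1.1) - (y.1.2 - t • gg y.1.1) =
      (x.1.2 - y.1.2) - (t • gg x.1.1 - t • gg y.1.1) := by abel
  rw [e1]
  exact (norm_sub_le _ _).trans (by linarith)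

theorem eqe_symm_norm {t : ℝ} (ht : 0 < t) (x y : Zs × C0) :
    ‖(eqe ht).symm x - (eqe ht).symm y‖ ≤ (1 + 2 * t) * ‖x - y‖ := by
  have h1 : ‖x.1.1 - y.1.1‖ ≤ ‖x - y‖ := le_max_left _ _
  have h2 : ‖x.2.1 - y.2.1‖ ≤ ‖x - y‖ := le_max_right _ _
  have h3 := smul_gg_lip ht x.1.1 y.1.1
  have h0 := norm_nonneg (x - y)
  show max ‖x.1.1 - y.1.1‖ ‖(x.2.1 + t • gg x.1.1) - (y.2.1 + t • gg y.1.1)‖
    ≤ (1 + 2 * t) * ‖x - y‖
  have h4 : 2 * t * ‖x.1.1 - y.1.1‖ ≤ 2 * t * ‖x - y‖ :=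
    mul_le_mul_of_nonneg_left h1 (by positivity)
  have h5 : 0 ≤ 2 * t * ‖x - y‖ := by positivity
  refine max_le (by linarith) ?_
  have e1 : (x.2.1 + t • gg x.1.1) - (y.2.1 + t • gg y.1.1) =
      (x.2.1 - y.2.1) + (t • gg x.1.1 - t • gg y.1.1) := by abel
  rw [e1]
  exact (norm_add_le _ _).trans (by linarith)

/-- the rescaled space is isomorphic to the original one -/
noncomputable def iso {t : ℝ} (ht : 0 < t) : Xe t ≃L[ℝ] Xs where
  toFun x := ⟨(x.1.1, t⁻¹ • x.1.2), x.2⟩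
  invFun y := ⟨(y.1.1, t • y.1.2), by
    show ((y.1.1, t⁻¹ • (t • y.1.2)) : B1 × B2) ∈ Xs
    rw [inv_smul_smul₀ ht.ne']
    exact y.2⟩
  map_add' x y := by
    apply Subtype.ext
    refine Prod.ext rfl ?_
    show t⁻¹ • (x.1.2 + y.1.2) = t⁻¹ • x.1.2 + t⁻¹ • y.1.2
    rw [smul_add]
  map_smul' c x := by
    apply Subtype.ext
    refine Prod.ext rfl ?_
    show t⁻¹ • (c • x.1.2) = c • (t⁻¹ • x.1.2)
    rw [smul_comm]
  left_inv x := by
    apply Subtype.ext
    refine Prod.ext rfl ?_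
    show t • (t⁻¹ • x.1.2) = x.1.2
    rw [smul_inv_smul₀ ht.ne']
  right_inv y := by
    apply Subtype.ext
    refine Prod.ext rfl ?_
    show t⁻¹ • (t • y.1.2) = y.1.2
    rw [inv_smul_smul₀ ht.ne']
  continuous_toFun := by
    apply Continuous.subtype_mk
    exact (continuous_fst.comp continuous_subtype_val).prodMk
      ((continuous_snd.comp continuous_subtype_val).const_smul t⁻¹)
  continuous_invFun := by
    apply Continuous.subtype_mk
    exact (continuous_fst.comp continuous_subtype_val).prodMk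
      ((continuous_snd.comp continuous_subtype_val).const_smul t)

/-- the same isomorphism with the type synonym `XT` of `Xs` as its target -/
noncomputable def isoT {t : ℝ} (ht : 0 < t) : Xe t ≃L[ℝ] XT := iso ht

/-- transport of an equivalent norm along an isomorphism -/
theorem EquivNorm.comp {E F : Type} [NormedAddCommGroup E] [NormedSpace ℝ E]
    [NormedAddCommGroup F] [NormedSpace ℝ F] (T : E ≃L[ℝ] F) {N : F → ℝ} (h : EquivNorm N) :
    EquivNorm fun x => N (T x) := by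
  obtain ⟨h1, h2, a, b, ha, hb, h3⟩ := h
  refine ⟨fun x y => ?_, fun r x => ?_, ?_⟩
  · show N (T (x + y)) ≤ N (T x) + N (T y)
    rw [map_add]
    exact h1 _ _
  · show N (T (r • x)) = |r| * N (T x)
    rw [map_smul]
    exact h2 _ _
  obtain ⟨C, hC, hT⟩ := (T : E →L[ℝ] F).bound
  obtain ⟨D, hD, hS⟩ := (T.symm : F →L[ℝ] E).bound
  refine ⟨a / D, b * C, by positivity, by positivity, fun x => ⟨?_, ?_⟩⟩
  · have h4 : ‖x‖ ≤ D * ‖T x‖ := by
      have := hS (T x)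
      simpa using this
    calc a / D * ‖x‖ ≤ a / D * (D * ‖T x‖) := mul_le_mul_of_nonneg_left h4 (by positivity)
      _ = a * ‖T x‖ := by field_simp
      _ ≤ N (T x) := (h3 _).1
  · calc N (T x) ≤ b * ‖T x‖ := (h3 _).2
      _ ≤ b * (C * ‖x‖) := mul_le_mul_of_nonneg_left (hT x) hb.le
      _ = b * C * ‖x‖ := by ring

theorem contDiffAt_comp {E F : Type} [NormedAddCommGroup E] [NormedSpace ℝ E]
    [NormedAddCommGroup F] [NormedSpace ℝ F] (T : E ≃L[ℝ] F) {N : F → ℝ}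
    (h : ∀ x : F, x ≠ 0 → ContDiffAt ℝ ∞ N x) (x : E) (hx : x ≠ 0) :
    ContDiffAt ℝ ∞ (fun x => N (T x)) x := by
  have h1 : T x ≠ 0 := fun h0 => hx (by simpa using h0)
  exact (h (T x) h1).comp x T.contDiff.contDiffAt

theorem timesDiff_of_smooth {E : Type} [NormedAddCommGroup E] [NormedSpace ℝ E] {N : E → ℝ}
    (h : ∀ x : E, x ≠ 0 → ContDiffAt ℝ ∞ N x) (k : ℕ) : TimesDiff k N := fun m _ x hx =>
  (h x hx).differentiableAt_iteratedFDeriv (by exact_mod_cast ENat.natCast_lt_top m)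

theorem differentiable_of_timesDiff {E : Type} [NormedAddCommGroup E] [NormedSpace ℝ E]
    {N : E → ℝ} {k : ℕ} (hk : 1 ≤ k) (h : TimesDiff k N) (x : E) (hx : x ≠ 0) :
    DifferentiableAt ℝ N x := by
  have h5 := h 0 (by omega) x hx
  have h6 : N = (continuousMultilinearCurryFin0 ℝ E ℝ) ∘ (iteratedFDeriv ℝ 0 N) := by
    funext y
    simp
  rw [h6]
  exact (continuousMultilinearCurryFin0 ℝ E ℝ).toContinuousLinearEquiv.differentiableAt.comp x h5

theorem equivNorm_iso {t : ℝ} (ht : 0 < t) {N : XT → ℝ} (hN : EquivNorm N) :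
    EquivNorm fun x : Xe t => N (isoT ht x) := by
  have h := EquivNorm.comp (E := Xe t) (F := XT) (isoT ht) hN
  exact h

theorem smooth_iso {t : ℝ} (ht : 0 < t) {N : XT → ℝ}
    (h : ∀ x : XT, x ≠ 0 → ContDiffAt ℝ ∞ N x) :
    ∀ x : Xe t, x ≠ 0 → ContDiffAt ℝ ∞ (fun x : Xe t => N (isoT ht x)) x := by
  have h := contDiffAt_comp (E := Xe t) (F := XT) (isoT ht) h
  exact h

/-- There are Banach spaces `X₀` and `Y` such that `X₀` has an equivalent norm which is infinitely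
often differentiable off the origin, `Y` has no equivalent norm which is Fréchet differentiable off
the origin, and for every `ε > 0` some Banach space `X` linearly isomorphic to `X₀` is
Lipschitz homeomorphic to `Y` by a map `f` such that `f` and its inverse have Lipschitz constant at
most `1 + ε`. In particular, for every `k ≥ 1`, the space `X` has an equivalent `k` times Fréchet
differentiable norm and `Y` has none. -/
theorem result : ∃ (X₀ Y : Type)
    (_ : NormedAddCommGroup X₀) (_ : NormedSpace ℝ X₀) (_ : CompleteSpace X₀)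
    (_ : NormedAddCommGroup Y) (_ : NormedSpace ℝ Y) (_ : CompleteSpace Y),
    (∃ N : X₀ → ℝ, EquivNorm N ∧ ∀ x : X₀, x ≠ 0 → ContDiffAt ℝ ∞ N x) ∧
    (¬ ∃ N : Y → ℝ, EquivNorm N ∧ ∀ x : Y, x ≠ 0 → DifferentiableAt ℝ N x) ∧
    ∀ ε : ℝ, 0 < ε → ∃ (X : Type)
      (_ : NormedAddCommGroup X) (_ : NormedSpace ℝ X) (_ : CompleteSpace X)
      (_ : X ≃L[ℝ] X₀) (f : X ≃ Y),
      (∀ x y : X, ‖f x - f y‖ ≤ (1 + ε) * ‖x - y‖) ∧
      (∀ x y : Y, ‖f.symm x - f.symm y‖ ≤ (1 + ε) * ‖x - y‖) ∧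
      (∃ N : X → ℝ, EquivNorm N ∧ (∀ x : X, x ≠ 0 → ContDiffAt ℝ ∞ N x) ∧
        ∀ k : ℕ, TimesDiff k N) ∧
      ∀ k : ℕ, 1 ≤ k → ¬ ∃ N : Y → ℝ, EquivNorm N ∧ TimesDiff k N := by
  obtain ⟨N, h1, h2, h3, h4⟩ := XT_smooth
  have hY : ¬ ∃ N : ZT × CT → ℝ, EquivNorm N ∧ ∀ x, x ≠ 0 → DifferentiableAt ℝ N x := by
    rintro ⟨N, ⟨h1, h2, a, b, ha, hb, h3⟩, h4⟩
    exact YT_no_frechet N h1 h2 a b ha hb h3 h4
  refine ⟨XT, ZT × CT, inferInstance, inferInstance, inferInstance, inferInstance, inferInstance,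
    inferInstance, ⟨N, ⟨h1, h2, h3⟩, h4⟩, hY, fun ε hε => ?_⟩
  have ht : 0 < ε / 2 := by positivity
  have e : 1 + 2 * (ε / 2) = 1 + ε := by ring
  have hN : EquivNorm (E := XT) N := ⟨h1, h2, h3⟩
  have hn := equivNorm_iso ht hN
  have hs := smooth_iso ht h4
  refine ⟨Xe (ε / 2), inferInstance, inferInstance, (Xe_closed _).completeSpace_coe, isoT ht,
    eqe ht, fun x y => ?_, fun x y => ?_, ⟨fun x => N (isoT ht x), hn,
      hs, timesDiff_of_smooth hs⟩,
    fun k hk => ?_⟩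
  · rw [← e]
    exact eqe_norm ht x y
  · rw [← e]
    exact eqe_symm_norm ht x y
  · rintro ⟨M, hM, hk2⟩
    exact hY ⟨M, hM, differentiable_of_timesDiff hk hk2⟩

end Pool.Agent.Results.MP_19024a_an.AlmostIsometric
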